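import Mathlib

set_option autoImplicit false

namespace Pool.Agent.Results.MP_17dcfb_an.Both

open MeasureTheory Filter Classical
open scoped ENNReal

section
variable {V : Type} (F : V → V → ℕ)

/-- Edges between two consecutive levels: `⟨v, w, j⟩` has range `v` and source `w`; there are
`F v w` edges from `w` to `v`. -/
abbrev Edge := Σ v : V, Σ w : V, Fin (F v w)

/-- Every vertex meets finitely many edges, emits an edge and receives an edge. -/
def Diagram : Prop :=
  (∀ v, {w | F v w ≠ 0}.Finite) ∧ (∀ w, {v | F v w ≠ 0}.Finite) ∧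
    (∀ w, ∃ v, F v w ≠ 0) ∧ ∀ v, ∃ w, F v w ≠ 0

/-- The path space of the stationary diagram. -/
abbrev Path := {x : ℕ → Edge F // ∀ i, (x i).1 = (x (i + 1)).2.1}

variable {F}

/-- Finite paths starting at level `0`. -/
def IsFin {n : ℕ} (e : Fin (n + 1) → Edge F) : Prop :=
  ∀ i : Fin n, (e i.castSucc).1 = (e i.succ).2.1

/-- The cylinder set of a finite path. -/
def cyl {n : ℕ} (e : Fin (n + 1) → Edge F) : Set (Path F) := {x | ∀ i : Fin (n + 1), x.1 i = e i}

instance borel : MeasurableSpace (Path F) :=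
  MeasurableSpace.generateFrom {s | ∃ n, ∃ e : Fin (n + 1) → Edge F, IsFin e ∧ s = cyl e}

/-- Tail-invariant measures. -/
def TailInv (μ : Measure (Path F)) : Prop :=
  μ ≠ 0 ∧ ∀ n (e e' : Fin (n + 1) → Edge F), IsFin e → IsFin e' →
    (e (Fin.last n)).1 = (e' (Fin.last n)).1 → μ (cyl e) = μ (cyl e')

variable (F)

/-- Entries of the matrix powers. -/
noncomputable def pw : ℕ → V → V → ℕ
  | 0 => fun i j => if i = j then 1 else 0
  | n + 1 => fun i j => ∑ᶠ k, F i k * pw n k j

/-- Aperiodic irreducible matrices. -/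
def AperIrred : Prop :=
  (∀ i j, ∃ n, 0 < n ∧ 0 < pw F n i j) ∧ ∀ i d, (∀ n, 0 < pw F n i i → d ∣ n) → d = 1

/-- The Perron eigenvalue is infinite. -/
def InfPerron : Prop :=
  ∀ i j, Tendsto (fun n : ℕ => (pw F n i j : ℝ) ^ (1 / n : ℝ)) atTop atTop

end

/-- The tridiagonal matrix of Q2; the index `i : ℕ` stands for `i + 1`. -/
def tri (i j : ℕ) : ℕ := if i = j then i + 2 else if i = j + 1 ∨ j = i + 1 then 1 else 0

theorem meas {V : Type} {F : V → V → ℕ} {n : ℕ} {e : Fin (n + 1) → Edge F} (h : IsFin e) :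
    MeasurableSet (cyl e) := MeasurableSpace.measurableSet_generateFrom ⟨n, e, h, rfl⟩

theorem q2 (μ : Measure (Path tri)) [IsFiniteMeasure μ] : ¬ TailInv μ := by
  rintro ⟨h0, h⟩
  let l : ℕ → Edge tri := fun v => ⟨v, v, 0, by simp [tri]⟩
  have l1 : ∀ n v, IsFin fun _ : Fin (n + 1) => l v := fun _ _ _ => rfl
  let P : ℕ → ℕ → ℝ≥0∞ := fun n v => μ (cyl fun _ : Fin (n + 1) => l v)
  have r : ∀ n v, P n v = ∑' w, tri w v * P (n + 1) w := fun n v => by
    let e : (Σ w, Fin (tri w v)) → Fin (n + 2) → Edge tri := fun a =>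
      Fin.snoc (α := fun _ => Edge tri) (fun _ => l v) ⟨a.1, v, a.2⟩
    have ec : ∀ a i, e a (Fin.castSucc i) = l v := fun a i => by simp only [e, Fin.snoc_castSucc]
    have el : ∀ a, e a (Fin.last (n + 1)) = ⟨a.1, v, a.2⟩ := fun a => by simp only [e, Fin.snoc_last]
    have e1 : ∀ a, IsFin (e a) := fun a i => by
      induction i using Fin.lastCases with
      | last => rw [ec, Fin.succ_last, el]
      | cast i => rw [ec, Fin.succ_castSucc, ec]
    have : (cyl fun _ : Fin (n + 1) => l v) = ⋃ a, cyl (e a) := by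
      ext x
      simp only [cyl, Set.mem_iUnion, Set.mem_ofPred_eq, Fin.forall_fin_succ' (n := n + 1), e,
        Fin.snoc_castSucc, Fin.snoc_last, Fin.val_castSucc, Fin.val_last]
      refine ⟨fun g => ?_, fun ⟨_, g, _⟩ => g⟩
      have := x.2 n
      rw [show x.1 n = l v from g (Fin.last n)] at this
      generalize x.1 (n + 1) = b at *
      obtain ⟨w, u, j⟩ := b
      obtain rfl : v = u := this
      exact ⟨⟨w, j⟩, g, rfl⟩
    simp only [P]
    rw [this, measure_iUnion (fun a b ab => Set.disjoint_left.mpr fun x c d => ab ?_)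
      fun a => meas (e1 a), ENNReal.tsum_sigma']
    · refine tsum_congr fun w => ?_
      rw [tsum_congr fun j => h _ _ _ (e1 ⟨w, j⟩) (l1 _ w) (by simp [e, l])]
      simp
    · have := (c (Fin.last _)).symm.trans (d (Fin.last _))
      obtain ⟨a, i⟩ := a
      obtain ⟨b, j⟩ := b
      simp only [e, Fin.snoc_last] at this
      obtain rfl : a = b := congrArg (·.1) this
      simpa using this
  let p : ℕ → ℕ → ℝ := fun n v => Nat.casesOn v 0 fun v => (P n v).toReal
  have p0 : ∀ n v, 0 ≤ p n v := fun n v => by cases v <;> simp [p]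
  have fin : ∀ n v, P n v ≠ ⊤ := fun n v => measure_ne_top _ _
  have s : ∀ n v, p n (v + 1) = p (n + 1) v + (v + 2) * p (n + 1) (v + 1) + p (n + 1) (v + 2) := by
    intro n v
    show (P n v).toReal = _
    rcases v with _ | v
    · rw [r, tsum_eq_sum (s := {0, 1}) fun b hb => by
        rw [show tri b 0 = 0 by simp at hb; simp [tri, hb]]; simp]
      simp [tri, p, ENNReal.toReal_add, fin, ENNReal.mul_ne_top]
      rfl
    · rw [r, tsum_eq_sum (s := {v, v + 1, v + 2}) fun b hb => by
        rw [show tri b (v + 1) = 0 by simp at hb; unfold tri; split_ifs <;> omega]; simp]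
      rw [Finset.sum_insert (by simp), Finset.sum_pair (by simp), ENNReal.toReal_add,
        ENNReal.toReal_add] <;>
      simp [tri, p, fin, ENNReal.mul_ne_top, add_assoc, ENNReal.toReal_add]
      norm_num
  have m : ∀ v n, p n v ≤ p n (v + 1) := fun v => by
    induction v with
    | zero => exact fun n => p0 n 1
    | succ v ih =>
      intro n
      have a : ∀ m, (v + 2) ^ m * (p (n + m) (v + 2) - p (n + m) (v + 1)) ≤
          p n (v + 2) - p n (v + 1) := fun m => by
        induction m with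
        | zero => simp
        | succ m ihm =>
          refine le_trans ?_ ihm
          rw [pow_succ, mul_assoc, s (n + m), s (n + m) v]
          refine mul_le_mul_of_nonneg_left ?_ (by positivity)
          have := ih (n + m + 1)
          have := p0 (n + m + 1) (v + 1 + 2)
          push_cast
          rw [← add_assoc]
          linarith
      have b : ∀ m, (v + 3) ^ m * p (n + m) (v + 2) ≤ p n (v + 2) := fun m => by
        induction m with
        | zero => simp
        | succ m ihm =>
          refine le_trans ?_ ihm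
          rw [pow_succ, mul_assoc, s (n + m)]
          refine mul_le_mul_of_nonneg_left ?_ (by positivity)
          have := p0 (n + m + 1) (v + 1)
          have := p0 (n + m + 1) (v + 1 + 2)
          push_cast
          rw [← add_assoc]
          linarith
      have t : Tendsto (fun m : ℕ => -((v + 2) * p n (v + 2) * (((v : ℝ) + 2) / (v + 3)) ^ m))
          atTop (nhds (-((v + 2) * p n (v + 2) * 0))) :=
        ((tendsto_pow_atTop_nhds_zero_of_lt_one (by positivity)
          ((div_lt_one (by positivity)).mpr (by linarith))).const_mul _).neg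
      rw [mul_zero, neg_zero] at t
      refine sub_nonneg.mp (le_of_tendsto' t fun m => le_trans ?_ (a (m + 1)))
      have c : p (n + (m + 1)) (v + 1) ≤ p n (v + 2) / (v + 3) ^ m := by
        rw [le_div_iff₀' (by positivity)]
        refine le_trans (mul_le_mul_of_nonneg_left ?_ (by positivity)) (b m)
        rw [s (n + m)]
        have := p0 (n + m + 1) (v + 1 + 2)
        have := mul_nonneg (show (0 : ℝ) ≤ (v + 1 : ℕ) + 2 by positivity) (p0 (n + m + 1) (v + 1 + 1))
        rw [← add_assoc]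
        linarith
      calc _ = ((v : ℝ) + 2) ^ (m + 1) * (0 - p n (v + 2) / (v + 3) ^ m) := by
            rw [div_pow]; field_simp; ring
        _ ≤ _ := mul_le_mul_of_nonneg_left (sub_le_sub (p0 (n + (m + 1)) (v + 2)) c) (by positivity)
  have z : ∀ v, P 0 v = 0 := fun v => by
    have a : ∑' v, P 0 v ≠ ⊤ := by
      rw [← measure_iUnion (fun a b ab => Set.disjoint_left.mpr fun x c d => ab ?_)
        fun a => meas (l1 0 a)]
      · exact measure_ne_top _ _
      · exact congrArg (·.1) ((c 0).symm.trans (d 0))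
    have b := (tendsto_add_atTop_iff_nat v).mpr (ENNReal.summable_toReal a).tendsto_atTop_zero
    have c := ge_of_tendsto' b fun k => show (P 0 v).toReal ≤ _ from
      monotone_nat_of_le_succ (fun v => m v 0) (show v + 1 ≤ k + v + 1 by omega)
    exact ((ENNReal.toReal_eq_zero_iff _).mp (c.antisymm ENNReal.toReal_nonneg)).resolve_right
      (fin _ _)
  refine h0 (Measure.measure_univ_eq_zero.mp (measure_mono_null
    (t := ⋃ a : Edge tri, cyl fun _ : Fin 1 => a) (fun x _ => Set.mem_iUnion.mpr ⟨x.1 0, fun i => ?_⟩)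
    (measure_iUnion_null fun a => (h 0 _ _ (fun i => i.elim0) (l1 0 a.1) rfl).trans (z _))))
  rw [Fin.fin_one_eq_zero i]; rfl

def G (v w : ℤ) : ℕ :=
  if v = w then (-w).toNat else if v = w + 1 ∨ 0 ≤ w ∧ v = -w - 1 then 1 else 0

theorem G0 {v w : ℤ} (h : G v w ≠ 0) : v = w ∧ w < 0 ∨ v = w + 1 ∨ 0 ≤ w ∧ v = -w - 1 := by
  unfold G at h
  split_ifs at h <;> omega

theorem G1 (w : ℤ) : G (w + 1) w = 1 := by simp [G]

theorem dia : Diagram G :=
  ⟨fun v => (Set.toFinite {v, v - 1, -v - 1}).subset fun w h => by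
    have := G0 h; simp; omega,
  fun w => (Set.toFinite {w, w + 1, -w - 1}).subset fun v h => by
    have := G0 h; simp; omega,
  fun w => ⟨w + 1, by simp [G1]⟩, fun v => ⟨v - 1, by unfold G; split_ifs <;> omega⟩⟩

theorem grow (i j : ℤ) (M : ℕ) : ∃ c, ∀ n ≥ c, (M + 1) ^ n ≤ pw G n i j := by
  have st : ∀ n i k, G i k * pw G n k j ≤ pw G (n + 1) i j := fun n i k =>
    single_le_finsum (f := fun k => G i k * pw G n k j) k
      ((dia.1 i).subset fun k h => left_ne_zero_of_mul h) fun _ => Nat.zero_le _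
  have up : ∀ t x (s : ℕ), pw G t x j ≤ pw G (t + s) (x + s) j := fun t x s => by
    induction s with
    | zero => simp
    | succ s ih =>
      have := st (t + s) (x + s + 1) (x + s)
      rw [G1, one_mul] at this
      rw [Nat.cast_succ, ← add_assoc x]
      exact ih.trans this
  obtain ⟨K, k1, k2, k3⟩ : ∃ K : ℕ, (M + 1) ^ 2 ≤ K ∧ j < K ∧ -i ≤ K :=
    ⟨(M + 1) ^ 2 + j.natAbs + i.natAbs + 1, by omega, by omega, by omega⟩
  have k4 : 0 < K := lt_of_lt_of_le (by positivity) k1
  obtain ⟨a, ha⟩ := Int.eq_ofNat_of_zero_le (show 0 ≤ K - 1 - j by omega)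
  obtain ⟨b, hb⟩ := Int.eq_ofNat_of_zero_le (show 0 ≤ i + K by omega)
  have lo : ∀ m, K ^ m ≤ pw G (a + 1 + m) (-K) j := fun m => by
    induction m with
    | zero =>
      have := up 0 j a
      have h := st a (-K) (j + a)
      rw [show G (-K) (j + a) = 1 by unfold G; split_ifs <;> omega] at h
      simp only [pw, if_true, zero_add] at this
      simpa using this.trans (by simpa using h)
    | succ m ih =>
      have h := st (a + 1 + m) (-K) (-K)
      rw [show G (-K) (-K) = K by simp [G]] at h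
      rw [pow_succ']
      exact (Nat.mul_le_mul_left _ ih).trans h
  refine ⟨2 * (a + 1 + b), fun n hn => ?_⟩
  have := (lo (n - (a + 1 + b))).trans (up _ _ b)
  rw [show -(K : ℤ) + b = i by omega, show a + 1 + (n - (a + 1 + b)) + b = n by omega] at this
  refine le_trans ?_ ((Nat.pow_le_pow_left k1 _).trans this)
  rw [← pow_mul]
  exact Nat.pow_le_pow_right (by omega) (by omega)

def glue {n : ℕ} (e : Fin (n + 1) → Edge G) (he : IsFin e) (y : Path G)
    (h : (e (Fin.last n)).1 = (y.1 (n + 1)).2.1) : Path G :=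
  ⟨fun i => if g : i < n + 1 then e ⟨i, g⟩ else y.1 i, fun i => by
    dsimp only
    by_cases a : i < n
    · rw [dif_pos (by omega), dif_pos (by omega)]; exact he ⟨i, a⟩
    by_cases b : i = n
    · subst b; rw [dif_pos (by omega), dif_neg (by omega)]; exact h
    · rw [dif_neg (by omega), dif_neg (by omega)]; exact y.2 i⟩

theorem gl {n : ℕ} (e : Fin (n + 1) → Edge G) (he : IsFin e) (y : Path G)
    (h : (e (Fin.last n)).1 = (y.1 (n + 1)).2.1) {i : ℕ} (g : n + 1 ≤ i) :
    (glue e he y h).1 i = y.1 i := dif_neg (not_lt.mpr g)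

def D (c : ℤ) : Set (Path G) := {x | ∀ᶠ i : ℕ in atTop, (x.1 i).2.1 = i + c}

theorem Dfin (c : ℤ) : (D c).Finite := by
  have nz : ∀ (x : Path G) i, G (x.1 (i + 1)).2.1 (x.1 i).2.1 ≠ 0 := fun x i => by
    rw [← x.2]; exact (x.1 i).2.2.pos.ne'
  have a : ∀ x ∈ D c, ∀ i : ℕ, 0 ≤ i + c → (x.1 i).2.1 = i + c := fun x hx i hi => by
    obtain ⟨N, h⟩ := eventually_atTop.mp hx
    refine Nat.decreasingInduction (motive := fun i _ => 0 ≤ i + c → (x.1 i).2.1 = i + c)
      (fun k _ ih g => ?_) (fun _ => h (N + i) (by omega)) (show i ≤ N + i by omega) hi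
    have := G0 (nz x k)
    have := ih (by omega)
    omega
  have b : ∀ x ∈ D c, ∀ i ≤ c.natAbs, (x.1 i).2.1.natAbs + i ≤ 3 * c.natAbs := fun x hx i hi => by
    refine Nat.decreasingInduction (motive := fun i _ => (x.1 i).2.1.natAbs + i ≤ 3 * c.natAbs)
      (fun k _ ih => ?_) ?_ hi
    · have := G0 (nz x k); omega
    · have := a x hx c.natAbs (by omega); omega
  have f : {e : Edge G | e.1.natAbs ≤ 3 * c.natAbs ∧ e.2.1.natAbs ≤ 3 * c.natAbs}.Finite := by
    refine (((Finset.Icc (-(3 * c.natAbs) : ℤ) (3 * c.natAbs)).sigma fun v =>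
      (Finset.Icc (-(3 * c.natAbs) : ℤ) (3 * c.natAbs)).sigma fun w =>
        Finset.univ).finite_toSet).subset fun e h => ?_
    simp only [Set.mem_ofPred_eq, Finset.mem_coe, Finset.mem_sigma, Finset.mem_Icc,
      Finset.mem_univ, and_true] at *
    omega
  refine Set.Finite.of_finite_image (f := fun x (i : Fin c.natAbs) => x.1 i)
    ((Set.Finite.pi' fun _ => f).subset ?_) fun x hx y hy h => Subtype.ext (funext fun i => ?_)
  · rintro _ ⟨x, hx, rfl⟩ i
    have := b x hx i i.2.le
    have := b x hx (i + 1) i.2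
    have := x.2 i
    exact ⟨show (x.1 i).1.natAbs ≤ _ by omega, show (x.1 i).2.1.natAbs ≤ _ by omega⟩
  by_cases g : i < c.natAbs
  · exact congrFun h ⟨i, g⟩
  have x1 := a x hx i (by omega)
  have x2 := (x.2 i).trans (a x hx (i + 1) (by omega))
  have y1 := a y hy i (by omega)
  have y2 := (y.2 i).trans (a y hy (i + 1) (by omega))
  generalize x.1 i = s at *
  generalize y.1 i = t at *
  obtain ⟨v, w, j⟩ := s
  obtain ⟨v', w', j'⟩ := t
  dsimp only at *
  obtain rfl : v = w + 1 := by omega
  obtain rfl : w' = w := by omega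
  obtain rfl : v' = w' + 1 := by omega
  have := G1 w'
  rw [show j = j' by omega]

theorem result :
    (∃ F : ℤ → ℤ → ℕ, Diagram F ∧ AperIrred F ∧ InfPerron F ∧
      ∃ μ : Measure (Path F), IsFiniteMeasure μ ∧ TailInv μ ∧
        ∀ n (e : Fin (n + 1) → Edge F), IsFin e → 0 < μ (cyl e)) ∧
    ∀ μ : Measure (Path tri), IsFiniteMeasure μ → ¬ TailInv μ := by
  refine ⟨⟨G, dia, ⟨fun i j => ?_, fun i d h => ?_⟩, fun i j => tendsto_atTop.mpr fun b => ?_, ?_⟩,
    fun μ _ => q2 μ⟩
  · obtain ⟨c, h⟩ := grow i j 0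
    exact ⟨c + 1, by omega, (one_pow (c + 1)).ge.trans (h _ (by omega))⟩
  · obtain ⟨c, g⟩ := grow i i 0
    exact Nat.dvd_one.mp ((Nat.dvd_add_right (h c ((one_pow c).ge.trans (g c le_rfl)))).mp
      (h (c + 1) ((one_pow (c + 1)).ge.trans (g _ (by omega)))))
  · obtain ⟨M, hM⟩ := exists_nat_ge b
    obtain ⟨c, h⟩ := grow i j M
    filter_upwards [eventually_ge_atTop (c + 1)] with n hn
    rw [one_div, ← Real.pow_rpow_inv_natCast (show (0 : ℝ) ≤ M by positivity)
      (show n ≠ 0 by omega)] at *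
    refine hM.trans (Real.rpow_le_rpow (by positivity) ?_ (by positivity))
    exact_mod_cast (Nat.pow_le_pow_left M.le_succ n).trans (h n (by omega))
  obtain ⟨a, a1, a2⟩ := ENNReal.exists_pos_sum_of_countable one_ne_zero ℤ
  let S := fun c => (Dfin c).toFinset
  let μ : Measure (Path G) := Measure.sum fun c =>
    ((a c : ℝ≥0∞) / ((S c).card + 1)) • ∑ x ∈ S c, Measure.dirac x
  have m : ∀ s, MeasurableSet s → μ s =
      ∑' c, (a c : ℝ≥0∞) / ((S c).card + 1) * ((S c).filter (· ∈ s)).card := fun s hs => by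
    simp [μ, Measure.sum_apply _ hs, Measure.dirac_apply' _ hs, Set.indicator_apply]
  have pos : ∀ n (e : Fin (n + 1) → Edge G), IsFin e → 0 < μ (cyl e) := fun n e he => by
    let c := (e (Fin.last n)).1 - (n + 1)
    let y : Path G := ⟨fun i => ⟨i + c + 1, i + c, 0, by simp [G1]⟩, fun i => by push_cast; ring⟩
    rw [m _ (meas he)]
    refine lt_of_lt_of_le ?_ (ENNReal.le_tsum c)
    refine ENNReal.mul_pos (ENNReal.div_pos (by simpa using (a1 c).ne') (by simp)).ne' ?_
    refine Nat.cast_ne_zero.mpr (Finset.card_ne_zero_of_mem (a := glue e he y (by simp [y, c])) ?_)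
    refine Finset.mem_filter.mpr ⟨(Set.Finite.mem_toFinset _).mpr ?_, fun i => dif_pos i.2⟩
    filter_upwards [eventually_ge_atTop (n + 1)] with i hi
    exact congrArg (·.2.1) (gl e he y _ hi)
  have le : ∀ n (e e' : Fin (n + 1) → Edge G), IsFin e → IsFin e' →
      (e (Fin.last n)).1 = (e' (Fin.last n)).1 → μ (cyl e) ≤ μ (cyl e') := fun n e e' he he' h => by
    rw [m _ (meas he), m _ (meas he')]
    refine ENNReal.tsum_le_tsum fun c => mul_le_mul_right (Nat.cast_le.mpr ?_) _
    refine Finset.card_le_card_of_injOn (fun y => if g : y ∈ cyl e then glue e' he' y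
      (by rw [← h, ← g, ← y.2]; rfl) else y) (fun y hy => ?_) fun x hx y hy g => ?_
    · simp only [Finset.coe_filter, Set.mem_ofPred_eq, S, Set.Finite.mem_toFinset] at *
      rw [dif_pos hy.2]
      refine ⟨?_, fun i => dif_pos i.2⟩
      filter_upwards [eventually_ge_atTop (n + 1), hy.1] with i hi g
      rwa [gl _ _ _ _ hi]
    · simp only [Finset.coe_filter, Set.mem_ofPred_eq] at hx hy
      simp only [dif_pos hx.2, dif_pos hy.2] at g
      refine Subtype.ext (funext fun i => ?_)
      by_cases b : i < n + 1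
      · exact (hx.2 ⟨i, b⟩).trans (hy.2 ⟨i, b⟩).symm
      · exact (gl _ _ _ _ (not_lt.mp b)).symm.trans
          ((congrFun (congrArg Subtype.val g) i).trans (gl _ _ _ _ (not_lt.mp b)))
  refine ⟨μ, ⟨?_⟩, ⟨fun h => ?_, fun n e e' he he' h =>
    (le n e e' he he' h).antisymm (le n e' e he' he h.symm)⟩, pos⟩
  · rw [m _ .univ]
    refine ((ENNReal.tsum_le_tsum fun c => ?_).trans_lt a2).trans ENNReal.one_lt_top
    refine le_trans (mul_le_mul_right (show _ ≤ ((S c).card + 1 : ℝ≥0∞) by simp) _) ?_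
    exact (ENNReal.div_mul_cancel (by simp) (by simp)).le
  · simpa [h] using pos 0 (fun _ => ⟨0 + 1, 0, 0, by simp [G]⟩) fun i => i.elim0

end Pool.Agent.Results.MP_17dcfb_an.Both
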